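import Pool.Agent.Work.MP_1ce82a_an.Defs

/-! Statement layer: a closed surface other than the sphere and the projective plane is the plane
modulo a group `G` of diffeomorphisms; all objects are lifted to the plane. The notions which do not mention the
group (`D2`, `addPot`, `ph`, `IsOrbit`, `IsJacobi`, `energy`, `HypFix`) are those of `Defs`. -/

open Set Filter Topology MeasureTheory
open scoped ContDiff

namespace Pool.Agent.Work.MP_1ce82a_an.S

open Pool.Agent.Work.MP_1ce82a_an (E D2 addPot ph IsOrbit IsJacobi energy HypFix)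

variable {G : Type} [Group G] [MulAction G E]

/-- The differential of a deck transformation. -/
noncomputable def dk (g : G) (x : E) : E →L[ℝ] E := fderiv ℝ (fun y : E => g • y) x

variable (G) in
/-- The quotient of the plane by `G` is a closed smooth surface: `G` acts smoothly,
freely, properly discontinuously and cocompactly. -/
structure Surf : Prop where
  smooth : ∀ g : G, ContDiff ℝ ∞ (fun x : E => g • x)
  free : ∀ (g : G) (x : E), g • x = x → g = 1
  proper : ∀ K : Set E, IsCompact K → {g : G | ∃ x ∈ K, g • x ∈ K}.Finite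
  cocompact : ∃ K : Set E, IsCompact K ∧ ∀ x : E, ∃ g : G, g • x ∈ K

variable (G) in
/-- The action preserves the orientation: the surface is orientable. -/
def Orient : Prop := ∀ (g : G) (x : E), 0 < (dk g x).det

variable (G) in
/-- Continuous nowhere vanishing vector fields on the surface. -/
def NZField (V : E → E) : Prop :=
  Continuous V ∧ (∀ x, V x ≠ 0) ∧ ∀ (g : G) (x : E), V (g • x) = dk g x (V x)

variable (G) in
/-- Autonomous Tonelli Lagrangians on the tangent bundle of the surface. -/
structure Tonelli (L : E × E → ℝ) : Prop where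
  c2 : ContDiff ℝ 2 L
  inv : ∀ (g : G) (x v : E), L (g • x, dk g x v) = L (x, v)
  conv : ∀ (z : E × E) (w : E), w ≠ 0 → 0 < D2 L z (0, w) (0, w)
  super : ∀ x : E, Tendsto (fun v : E => L (x, v) / ‖v‖) (cocompact E) atTop

/-- Real cohomology classes: additive characters of the deck group. -/
def IsHom (c : G → ℝ) : Prop := ∀ a b : G, c (a * b) = c a + c b

/-- Linear combinations of classes. -/
def comb {b : ℕ} (e : Fin b → G → ℝ) (t : Fin b → ℝ) : G → ℝ := fun g => ∑ i, t i * e i g

/-- Full Lebesgue measure in the first cohomology, in the coordinates of a basis `e`. -/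
def Full (U : Set (G → ℝ)) : Prop :=
  ∃ (b : ℕ) (e : Fin b → G → ℝ), (∀ i, IsHom (e i)) ∧
    (∀ c, IsHom c → ∃! t, c = comb e t) ∧ ∀ᵐ t : Fin b → ℝ, comb e t ∈ U

variable (G) in
/-- Smooth functions on the surface. -/
def Cinf : Type :=
  {f : E → ℝ // ContDiff ℝ ∞ f ∧ ∀ (g : G) (x : E), f (g • x) = f x}

/-- All derivatives of a smooth function. -/
noncomputable def jets (f : Cinf G) (k : ℕ) : C(E, E [×k]→L[ℝ] ℝ) :=
  ⟨iteratedFDeriv ℝ k f.1, f.2.1.continuous_iteratedFDeriv (by exact_mod_cast le_top)⟩

/-- The smooth topology: uniform convergence of every derivative on compact sets. -/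
noncomputable instance instTopCinf : TopologicalSpace (Cinf G) :=
  TopologicalSpace.induced jets inferInstance

/-- `u` is the lift of a `C^1` subsolution at level `a` in the cohomology class `c`. -/
def IsSub (L : E × E → ℝ) (c : G → ℝ) (a : ℝ) (u : E → ℝ) : Prop :=
  ContDiff ℝ 1 u ∧ (∀ (g : G) (x : E), u (g • x) = u x + c g) ∧
    ∀ x v : E, fderiv ℝ u x v ≤ L (x, v) + a

/-- The critical value. -/
noncomputable def alpha (L : E × E → ℝ) (c : G → ℝ) : ℝ :=
  sInf {a | ∃ u, IsSub L c a u}

/-- The Aubry set in the sense of Fathi, lifted to the plane. -/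
def aubry (L : E × E → ℝ) (c : G → ℝ) : Set (E × E) :=
  {z | ∀ u, IsSub L c (alpha L c) u → fderiv ℝ u z.1 z.2 = L z + alpha L c}

/-- A nonzero Jacobi field tangent to the energy level which the linearised return map
multiplies by `l`. -/
def IsEig (L : E × E → ℝ) (x : ℝ → E) (P : ℝ) (σ : G) (l : ℝ) (ξ : ℝ → E) : Prop :=
  IsJacobi L x ξ ∧ ξ ≠ 0 ∧ (∀ t, fderiv ℝ (energy L) (ph x t) (ph ξ t) = 0) ∧
    ∀ t, ξ (t + P) = l • dk σ (x t) (ξ t)

variable (G) in
/-- `x` is a lift of a periodic orbit which is hyperbolic in its energy level. -/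
def HypPer (L : E × E → ℝ) (x : ℝ → E) : Prop :=
  IsOrbit L x ∧ deriv x 0 ≠ 0 ∧ ∃ (P : ℝ) (σ : G), 0 < P ∧ (∀ t, x (t + P) = σ • x t) ∧
    ∃ (a b : ℝ) (ξ ζ : ℝ → E), |a| < 1 ∧ 1 < |b| ∧ IsEig L x P σ a ξ ∧ IsEig L x P σ b ζ

variable (G) in
/-- The lift to the plane of the orbit of `x` in the tangent bundle of the surface. -/
def orb (x : ℝ → E) : Set (E × E) :=
  {z | ∃ (g : G) (t : ℝ), z = (g • x t, dk g (x t) (deriv x t))}

/-- The classes whose Aubry set is one hyperbolic periodic orbit or one hyperbolic fixed point. -/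
def Uset (F : E × E → ℝ) : Set (G → ℝ) :=
  {c | ∃ x : ℝ → E, (HypPer G F x ∨ HypFix F x) ∧ aubry F c = orb G x}

/-- The classes in which the Hamilton-Jacobi equation has a `C^1` solution `u` at the critical
level whose velocity field `V` is a continuous nowhere vanishing vector field on the surface. -/
def Tset (F : E × E → ℝ) : Set (G → ℝ) :=
  {c | ∃ (u : E → ℝ) (V : E → E), IsSub F c (alpha F c) u ∧ NZField G V ∧
    ∀ x, fderiv ℝ u x (V x) = F (x, V x) + alpha F c}

end Pool.Agent.Work.MP_1ce82a_an.S
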